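import Pool.Agent.Lib_helper80.ULS.Quad

/-!
# MP_ea0d02_nt: unimodular lattices of rank one over real quadratic fields from ramified primes
-/

open NumberField TensorProduct Pool.Agent.Lib_helper76.UL

namespace Pool.Agent.Lib_helper80.ULS

set_option linter.unusedSectionVars false

variable {K : Type} [Field K] [NumberField K]

theorem rk_ring : rk K (𝓞 K) = 1 := by
  unfold rk
  rw [(TensorProduct.AlgebraTensorModule.rid (𝓞 K) K K).finrank_eq, Module.finrank_self]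

/-- The ideal `(m, t)` of a number `t` with `t² = D = m m'`, `m`, `m'` coprime, with the form
`x y / m`, is a unimodular lattice of rank one. -/
theorem exists_ideal_lattice [IsTotallyReal K] (t : 𝓞 K) (m m' : ℕ) (hm : m ≠ 0)
    (hco : Nat.Coprime m m') (ht : t ^ 2 = ((m * m' : ℕ) : 𝓞 K)) :
    ∃ (G : Lat K) (j : G.L →ₗ[𝓞 K] 𝓞 K) (w : G.L), Unimodular K G.B ∧ rk K G.L = 1 ∧
      (∀ x y, j x * j y = (m : 𝓞 K) * G.B x y) ∧ j w = (m : 𝓞 K) := by
  have hm0 : (m : 𝓞 K) ≠ 0 := by exact_mod_cast hm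
  let I : Submodule (𝓞 K) (𝓞 K) := Ideal.span {(m : 𝓞 K), t}
  have hI : ∀ z, z ∈ I ↔ ∃ a b, a * (m : 𝓞 K) + b * t = z := fun z => Ideal.mem_span_pair
  have hmI : (m : 𝓞 K) ∈ I := (hI _).2 ⟨1, 0, by ring⟩
  have htI : t ∈ I := (hI _).2 ⟨0, 1, by ring⟩
  have ht' : t * t = (m : 𝓞 K) * (m' : 𝓞 K) := by
    rw [← pow_two, ht]; push_cast; ring
  have hdvd : ∀ p q : I, (m : 𝓞 K) ∣
      (LinearMap.BilinForm.restrict (LinearMap.mul (𝓞 K) (𝓞 K)) I) p q := by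
    rintro ⟨p, hp⟩ ⟨q, hq⟩
    obtain ⟨a, b, rfl⟩ := (hI p).1 hp
    obtain ⟨a', b', rfl⟩ := (hI q).1 hq
    change (m : 𝓞 K) ∣ (a * m + b * t) * (a' * m + b' * t)
    refine ⟨a * a' * m + a * b' * t + b * a' * t + b * b' * m', ?_⟩
    linear_combination (b * b') * ht'
  obtain ⟨A, hA⟩ := exists_div _ hm0 hdvd
  have hA' : ∀ p q : I, (p : 𝓞 K) * (q : 𝓞 K) = (m : 𝓞 K) * A p q := hA
  have hlat : IsLattice K I A := by
    refine ⟨inferInstance, ?_, ?_⟩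
    · intro x y
      apply mul_left_cancel₀ hm0
      rw [← hA', ← hA', mul_comm]
    · intro x hx φ
      have h1 : φ (((x : 𝓞 K) * (x : 𝓞 K) : 𝓞 K) : K) = φ (((m : 𝓞 K) * A x x : 𝓞 K) : K) := by
        rw [hA']
      push_cast at h1
      rw [map_mul, map_mul, map_natCast] at h1
      have h2 : φ ((x : 𝓞 K) : K) ≠ 0 := by
        rw [Ne, map_eq_zero]
        intro h
        have h' : (x : 𝓞 K) = 0 := RingOfIntegers.coe_eq_zero_iff.1 h
        exact hx (Subtype.ext h')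
      have h3 : 0 < φ ((x : 𝓞 K) : K) * φ ((x : 𝓞 K) : K) := mul_self_pos.2 h2
      rw [h1] at h3
      exact pos_of_mul_pos_right h3 (by positivity)
  refine ⟨⟨I, A, hlat⟩, I.subtype, ⟨m, hmI⟩, ?_, ?_, fun x y => hA' x y, rfl⟩
  · intro f
    obtain ⟨u, v, huv⟩ : ∃ u v : ℤ, (m : ℤ) * u + (m' : ℤ) * v = 1 := by
      refine ⟨Nat.gcdA m m', Nat.gcdB m m', ?_⟩
      rw [← Nat.gcd_eq_gcd_ab, hco]; simp
    have huv' : (m : 𝓞 K) * (u : 𝓞 K) + (m' : 𝓞 K) * (v : 𝓞 K) = 1 := by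
      exact_mod_cast congrArg (fun z : ℤ => (z : 𝓞 K)) huv
    let mI : I := ⟨m, hmI⟩
    let tI : I := ⟨t, htI⟩
    have h1 : mI = ((u : 𝓞 K) * m) • mI + ((v : 𝓞 K) * t) • tI := by
      apply Subtype.ext
      change (m : 𝓞 K) = (u : 𝓞 K) * m * m + (v : 𝓞 K) * t * t
      linear_combination (-(m : 𝓞 K)) * huv' - (v : 𝓞 K) * ht'
    have h2 : f mI = ((u : 𝓞 K) * f mI) * m + ((v : 𝓞 K) * f tI) * t := by
      conv_lhs => rw [h1]
      rw [map_add, map_smul, map_smul, smul_eq_mul, smul_eq_mul]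
      ring
    have h3 : f mI ∈ I := (hI _).2 ⟨_, _, h2.symm⟩
    refine ⟨⟨f mI, h3⟩, fun x => ?_⟩
    apply mul_left_cancel₀ hm0
    have h4 := hA' ⟨f mI, h3⟩ x
    change f mI * (x : 𝓞 K) = (m : 𝓞 K) * A ⟨f mI, h3⟩ x at h4
    refine h4.symm.trans ?_
    have h5 : (x : 𝓞 K) • mI = (m : 𝓞 K) • x := by
      apply Subtype.ext
      change (x : 𝓞 K) * m = m * x
      ring
    have h6 := congrArg f h5
    rw [map_smul, map_smul, smul_eq_mul, smul_eq_mul] at h6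
    rw [mul_comm]; exact h6
  · have hfin := hlat.fin
    have h1 : rk K I ≤ rk K (𝓞 K) := rk_le_of_inj inferInstance I.subtype
      (Submodule.injective_subtype I)
    rw [rk_ring] at h1
    have h2 := rk_perp_succ hlat ⟨m, hmI⟩ (fun h => hm0 (congrArg Subtype.val h))
    change rk K I = 1
    omega

/-- many unimodular lattices of rank one -/
theorem many_lattices [IsTotallyReal K] (t : 𝓞 K) (D : ℕ) (hD : Squarefree D)
    (ht : t ^ 2 = (D : 𝓞 K))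
    (hsq : ∀ m m2 : ℕ, m ∣ D → m2 ∣ D → (∃ z : K, z ^ 2 = ((m * m2 : ℕ) : K)) →
      m = m2 ∨ m * m2 = D) :
    ∃ F : Fin (D.divisors.filter (fun m => m * m < D)).card → Lat K,
      (∀ i, Unimodular K (F i).B ∧ rk K (F i).L = 1) ∧
        ∀ i j, i ≠ j → ¬ Isometric K (F i).B (F j).B := by
  classical
  set S := D.divisors.filter (fun m => m * m < D) with hS
  have hD0 : D ≠ 0 := hD.ne_zero
  have hmem : ∀ m ∈ S, m ∣ D ∧ m * m < D := by
    intro m hm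
    rw [hS, Finset.mem_filter, Nat.mem_divisors] at hm
    exact ⟨hm.1.1, hm.2⟩
  have key : ∀ m : S, ∃ (G : Lat K) (j : G.L →ₗ[𝓞 K] 𝓞 K) (w : G.L), Unimodular K G.B ∧
      rk K G.L = 1 ∧ (∀ x y, j x * j y = ((m : ℕ) : 𝓞 K) * G.B x y) ∧
      j w = ((m : ℕ) : 𝓞 K) := by
    rintro ⟨m, hm⟩
    obtain ⟨m', hm'⟩ := (hmem m hm).1
    have hm0 : m ≠ 0 := by
      rintro rfl
      rw [zero_mul] at hm'
      exact hD0 hm'
    refine exists_ideal_lattice t m m' hm0 ?_ (by rw [ht, hm'])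
    rw [hm'] at hD
    exact Nat.coprime_of_squarefree_mul hD
  choose G j w hU hrk hj hw using key
  let e := S.equivFin
  refine ⟨fun i => G (e.symm i), fun i => ⟨hU _, hrk _⟩, ?_⟩
  intro i i' hii' hiso
  obtain ⟨g, hg⟩ := hiso
  have hm1 := hmem _ (e.symm i).2
  have hm2 := hmem _ (e.symm i').2
  have h1 : ((e.symm i' : ℕ) : 𝓞 K) ≠ 0 := by
    intro h
    have h' : (e.symm i' : ℕ) = 0 := by exact_mod_cast h
    have := hm2.1
    rw [h'] at this
    exact hD0 (Nat.eq_zero_of_zero_dvd this)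
  have h2 : (G (e.symm i')).B (w (e.symm i')) (w (e.symm i')) = ((e.symm i' : ℕ) : 𝓞 K) := by
    apply mul_left_cancel₀ h1
    rw [← hj, hw]
  have h3 : (j (e.symm i) (g (w (e.symm i')))) ^ 2
      = (((e.symm i : ℕ) * (e.symm i' : ℕ) : ℕ) : 𝓞 K) := by
    rw [pow_two, hj, hg, h2]; push_cast; rfl
  have h4' : ∃ z : K, z ^ 2 = (((e.symm i : ℕ) * (e.symm i' : ℕ) : ℕ) : K) := by
    refine ⟨algebraMap (𝓞 K) K (j (e.symm i) (g (w (e.symm i')))), ?_⟩
    rw [← map_pow, h3, map_natCast]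
  rcases hsq _ _ hm1.1 hm2.1 h4' with h | h
  · exact hii' (e.symm.injective (Subtype.ext h))
  · have h5 : ((e.symm i : ℕ) * (e.symm i' : ℕ)) * ((e.symm i : ℕ) * (e.symm i' : ℕ)) < D * D := by
      calc ((e.symm i : ℕ) * (e.symm i' : ℕ)) * ((e.symm i : ℕ) * (e.symm i' : ℕ))
          = ((e.symm i : ℕ) * (e.symm i : ℕ)) * ((e.symm i' : ℕ) * (e.symm i' : ℕ)) := by ring
        _ < D * D := Nat.mul_lt_mul'' hm1.2 hm2.2
    rw [h] at h5
    exact lt_irrefl _ h5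

end Pool.Agent.Lib_helper80.ULS
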