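import Pool.Agent.Lib_helper80.ULS.Gap
import Pool.Agent.Lib_helper80.ULS.Genus
import Pool.Agent.Lib_helper41.UL.Four
import Pool.Agent.Lib_helper88.UL.E2
import Pool.Agent.Lib_helper88.UL.Half

/-!
# MP_ea0d02_nt: gaps over real quadratic fields
-/

open NumberField TensorProduct Pool.Agent.Lib_helper76.UL

namespace Pool.Agent.Lib_helper80.ULS

theorem final_general (K : Type) [Field K] [NumberField K] [IsTotallyReal K]
    (h2 : Module.finrank ℚ K = 2) (n N : ℕ) (hN : 4 * n ≤ N) (c : ℕ) (F : Fin c → Lat K)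
    (hF : ∀ i, Unimodular K (F i).B ∧ Indec K (F i).B)
    (hne : ∀ i j, i ≠ j → ¬ Isometric K (F i).B (F j).B) :
    U K n + ((∑ i, (N / rk K (F i).L - 4 * n / rk K (F i).L) * rk K (F i).L : ℕ) : ℕ∞)
      ≤ U K N :=
  gap_general (fun a ha => Pool.Agent.Lib_helper41.UL.four_squares_quadratic K h2 a ha) n N hN c F
    hF hne

theorem final_explicit (K : Type) [Field K] [NumberField K] [IsTotallyReal K]
    (h2 : Module.finrank ℚ K = 2) (n N : ℕ) (hN : 4 * n ≤ N) (D : ℕ) (t : K)
    (hD : Squarefree D) (hD1 : 1 < D) (ht : t ^ 2 = (D : K)) :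
    U K n + (((N - 4 * n) * 2 ^ (D.primeFactors.card - 1) : ℕ) : ℕ∞) ≤ U K N := by
  have hint : IsIntegral ℤ t := by
    have h : IsIntegral ℤ (t ^ 2) := by
      rw [ht]
      have h' : IsIntegral ℤ (algebraMap ℤ K (D : ℤ)) := isIntegral_algebraMap
      simpa using h'
    exact IsIntegral.of_pow (by norm_num) h
  let t' : 𝓞 K := ⟨t, hint⟩
  have ht' : t' ^ 2 = (D : 𝓞 K) := by
    apply RingOfIntegers.ext
    push_cast
    exact ht
  obtain ⟨F, hF, hne⟩ := many_lattices t' D hD ht'
    (fun m m2 hm hm2 ⟨z, hz⟩ => Pool.Agent.Lib_helper88.UL.e2 h2 hD hD1 ht hm hm2 hz)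
  have h := final_general K h2 n N hN _ F
    (fun i => ⟨(hF i).1, indec_of_rk_one (F i).isLat (hF i).2⟩) hne
  have h3 : ∑ i, (N / rk K (F i).L - 4 * n / rk K (F i).L) * rk K (F i).L
      = (N - 4 * n) * (D.divisors.filter (fun m => m * m < D)).card := by
    rw [Finset.sum_congr rfl (fun i _ => by rw [(hF i).2])]
    simp only [Nat.div_one, mul_one, Finset.sum_const, Finset.card_univ, Fintype.card_fin,
      smul_eq_mul]
    ring
  have h4 : (D.divisors.filter (fun m => m * m < D)).card = 2 ^ (D.primeFactors.card - 1) := by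
    rw [← Pool.Agent.Lib_helper88.UL.card_half hD hD1]
    exact congrArg Finset.card (Finset.filter_congr (fun m _ => by rw [pow_two]))
  rw [h3, h4] at h
  exact h

end Pool.Agent.Lib_helper80.ULS
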