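import Pool.Agent.Lib_helper80.ULS.Quad

/-!
# MP_ea0d02_nt: gaps from indecomposable unimodular lattices, if totally positive numbers are sums
of four squares
-/

open NumberField TensorProduct Pool.Agent.Lib_helper76.UL

namespace Pool.Agent.Lib_helper80.ULS

set_option linter.unusedSectionVars false

variable {K : Type} [Field K] [NumberField K]

theorem one_le_rk [IsTotallyReal K] (F : Lat K) (hF : Indec K F.B) : 1 ≤ rk K F.L := by
  have := hF.1
  obtain ⟨x, hx⟩ := exists_ne (0 : F.L)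
  have := rk_perp_succ F.isLat x hx
  omega

theorem gap_general [IsTotallyReal K]
    (h4 : ∀ a : K, (∀ φ : K →+* ℝ, 0 < φ a) → ∃ x : Fin 4 → K, ∑ i, x i ^ 2 = a) (n N : ℕ)
    (hN : 4 * n ≤ N) (c : ℕ) (F : Fin c → Lat K)
    (hF : ∀ i, Unimodular K (F i).B ∧ Indec K (F i).B)
    (hne : ∀ i j, i ≠ j → ¬ Isometric K (F i).B (F j).B) :
    U K n + ((∑ i, (N / rk K (F i).L - 4 * n / rk K (F i).L) * rk K (F i).L : ℕ) : ℕ∞)
      ≤ U K N := by
  have hG : IsLattice K (Fin n → Fin 4 → 𝓞 K) (powForm K (dot K 4) n) :=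
    pow_lattice K (dot K 4) (dot_lattice K 4) n
  have hrk : rk K (Fin n → Fin 4 → 𝓞 K) = n * 4 := by rw [rk_pow, rk_dot]
  refine removal_space K n N ⟨Fin n → Fin 4 → 𝓞 K, powForm K (dot K 4) n, hG⟩
    (pow_unimodular (dot_unimodular 4) n)
    (by change rk K (Fin n → Fin 4 → 𝓞 K) ≤ _; rw [hrk]; omega)
    (fun M hM => ratRep_squares h4 n M hM.le) c F (fun i => N / rk K (F i).L)
    (fun i => 4 * n / rk K (F i).L) hF hne (fun i => Nat.div_le_div_right hN)
    (fun i => Nat.div_mul_le_self _ _) ?_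
  intro i hrep
  have hfin : Module.Finite (𝓞 K) (F i).L := (F i).isLat.fin
  have h1 := ratRep_rk hG.fin ⟨Fin (4 * n / rk K (F i).L + 1) → (F i).L,
    powForm K (F i).B (4 * n / rk K (F i).L + 1),
    pow_lattice K (F i).B (F i).isLat (4 * n / rk K (F i).L + 1)⟩ hrep
  change rk K (Fin (4 * n / rk K (F i).L + 1) → (F i).L) ≤ rk K (Fin n → Fin 4 → 𝓞 K) at h1
  rw [rk_pow, hrk] at h1
  have h2 : 4 * n < (4 * n / rk K (F i).L + 1) * rk K (F i).L := by
    rw [Nat.mul_comm (4 * n / rk K (F i).L + 1)]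
    exact Nat.lt_mul_div_succ (4 * n) (one_le_rk (F i) (hF i).2)
  omega

end Pool.Agent.Lib_helper80.ULS
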