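import Pool.Agent.Lib_helper80.ULS.Space

/-!
# MP_ea0d02_nt: gaps of unimodular lattices of rank one, if totally positive numbers are sums of
four squares
-/

open NumberField TensorProduct Pool.Agent.Lib_helper76.UL

namespace Pool.Agent.Lib_helper80.ULS

set_option linter.unusedSectionVars false

variable {K : Type} [Field K] [NumberField K]

section
variable {L : Type} [AddCommGroup L] [Module (𝓞 K) L] {B : LinearMap.BilinForm (𝓞 K) L}

theorem rk_le_of_inj {A : Type} [AddCommGroup A] [Module (𝓞 K) A] (hfin : Module.Finite (𝓞 K) L)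
    (Φ : A →ₗ[𝓞 K] L) (hinj : Function.Injective Φ) : rk K A ≤ rk K L := by
  have hflat : Module.Flat (𝓞 K) K := IsLocalization.flat K (nonZeroDivisors (𝓞 K))
  have hinj2 : Function.Injective (Φ.baseChange K) :=
    Module.Flat.lTensor_preserves_injective_linearMap (M := K) Φ hinj
  exact LinearMap.finrank_le_finrank_of_injective hinj2

theorem sub_lattice (hB : IsLattice K L B) (P : Submodule (𝓞 K) L) :
    IsLattice K P (res K B P) := by
  have := hB.fin
  exact ⟨inferInstance, fun x y => hB.symm x.1 y.1,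
    fun x hx φ => hB.pos x.1 (fun h => hx (Subtype.ext h)) φ⟩

theorem rk_perp_succ [IsTotallyReal K] (hB : IsLattice K L B) (v : L) (hv : v ≠ 0) :
    rk K (perp K B v) + 1 ≤ rk K L := by
  have hfin := hB.fin
  have hfin2 : Module.Finite (𝓞 K) (perp K B v) := (sub_lattice hB (perp K B v)).fin
  rw [← rk_prod]
  let Φ : 𝓞 K × perp K B v →ₗ[𝓞 K] L :=
    (LinearMap.toSpanSingleton (𝓞 K) L v).coprod (perp K B v).subtype
  have hΦ : ∀ a y, Φ (a, y) = a • v + (y : L) := fun a y => rfl
  refine rk_le_of_inj hfin Φ ?_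
  rw [← LinearMap.ker_eq_bot, LinearMap.ker_eq_bot']
  rintro ⟨a, y⟩ h
  rw [hΦ] at h
  have hy : B v (y : L) = 0 := y.2
  have h1 : a * B v v = 0 := by
    have : B v (a • v + (y : L)) = 0 := by rw [h]; simp
    rwa [map_add, map_smul, smul_eq_mul, hy, add_zero] at this
  have ha : a = 0 := by
    rcases mul_eq_zero.1 h1 with h2 | h2
    · exact h2
    · exact absurd (self_zero hB v h2) hv
  rw [ha, zero_smul, zero_add] at h
  rw [ha]
  ext1
  · rfl
  · exact Subtype.ext h

theorem ratRep_rk [IsTotallyReal K] (hfin : Module.Finite (𝓞 K) L) (M : Lat K)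
    (h : RatRep K B M.B) : rk K M.L ≤ rk K L := by
  obtain ⟨c, hc, σ, hσ⟩ := h
  refine rk_le_of_inj hfin σ ?_
  rw [← LinearMap.ker_eq_bot, LinearMap.ker_eq_bot']
  intro x hx
  apply self_zero M.isLat
  have h1 := hσ x
  rw [hx] at h1
  have h2 : c ^ 2 * M.B x x = 0 := by rw [← h1]; simp
  exact (mul_eq_zero.1 h2).resolve_left (pow_ne_zero 2 hc)

theorem indec_of_rk_one [IsTotallyReal K] (hB : IsLattice K L B) (h : rk K L = 1) :
    Indec K B := by
  have hfin := hB.fin
  refine ⟨?_, ?_⟩
  · by_contra hcon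
    rw [not_nontrivial_iff_subsingleton] at hcon
    have : rk K L = 0 := by
      unfold rk
      have : Subsingleton (K ⊗[𝓞 K] L) := inferInstance
      exact Module.finrank_zero_of_subsingleton
    omega
  · intro P Q ho _
    by_contra hcon
    rw [not_or] at hcon
    obtain ⟨v, hv, hv0⟩ := Submodule.exists_mem_ne_zero_of_ne_bot hcon.1
    obtain ⟨w, hw, hw0⟩ := Submodule.exists_mem_ne_zero_of_ne_bot hcon.2
    have h1 := rk_perp_succ hB v hv0
    have hw' : w ∈ perp K B v := ho v hv w hw
    have h2 := rk_perp_succ (sub_lattice hB (perp K B v)) ⟨w, hw'⟩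
      (fun h => hw0 (congrArg Subtype.val h))
    omega

end

theorem dot_unimodular (n : ℕ) : Unimodular K (dot K n) := by
  intro f
  refine ⟨fun i => f (Pi.single i 1), fun x => ?_⟩
  have h1 : x = ∑ i, x i • (Pi.single i (1 : 𝓞 K) : Fin n → 𝓞 K) := by
    ext j
    simp [Finset.sum_apply, Pi.single_apply]
  have h2 : f x = ∑ i, x i * f (Pi.single i 1) := by
    conv_lhs => rw [h1]
    simp [map_sum]
  rw [h2]
  change ∑ i, f (Pi.single i 1) * x i = _
  exact Finset.sum_congr rfl fun i _ => mul_comm _ _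

theorem pow_unimodular {M : Type} [AddCommGroup M] [Module (𝓞 K) M]
    {BM : LinearMap.BilinForm (𝓞 K) M} (h : Unimodular K BM) (k : ℕ) :
    Unimodular K (powForm K BM k) := by
  intro f
  choose a ha using fun i : Fin k => h (f.comp (LinearMap.single (𝓞 K) (fun _ : Fin k => M) i))
  refine ⟨a, fun x => ?_⟩
  rw [powForm_apply]
  have h1 : x = ∑ i, (Pi.single i (x i) : Fin k → M) := by
    ext j
    simp [Finset.sum_apply, Pi.single_apply]
  conv_rhs => rw [h1, map_sum]
  exact Finset.sum_congr rfl fun i _ => ha i (x i)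

/-- Every positive definite lattice of rank at most `n` is rationally represented by the sum of
`4 n` squares, if every totally positive number is a sum of four squares. -/
theorem ratRep_squares [IsTotallyReal K]
    (h4 : ∀ a : K, (∀ φ : K →+* ℝ, 0 < φ a) → ∃ x : Fin 4 → K, ∑ i, x i ^ 2 = a) (n : ℕ) :
    ∀ M : Lat K, rk K M.L ≤ n → RatRep K (powForm K (dot K 4) n) M.B := by
  induction n with
  | zero =>
    intro M hM
    refine ⟨1, one_ne_zero, 0, fun x => ?_⟩
    have hx : x = 0 := by
      by_contra hx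
      have := rk_perp_succ M.isLat x hx
      omega
    rw [hx, powForm_apply]; simp
  | succ n ih =>
    intro M hM
    by_cases hv : ∃ v : M.L, v ≠ 0
    · obtain ⟨v, hv⟩ := hv
      have hrk := rk_perp_succ M.isLat v hv
      obtain ⟨c', hc', σ', hσ'⟩ := ih ⟨perp K M.B v, res K M.B (perp K M.B v),
        sub_lattice M.isLat (perp K M.B v)⟩ (by change rk K (perp K M.B v) ≤ n; omega)
      change perp K M.B v →ₗ[𝓞 K] (Fin n → Fin 4 → 𝓞 K) at σ'
      have hσ : ∀ w : perp K M.B v, powForm K (dot K 4) n (σ' w) (σ' w)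
          = c' ^ 2 * M.B (w : M.L) (w : M.L) := hσ'
      obtain ⟨x, hx⟩ := h4 ((M.B v v : 𝓞 K) : K) (fun φ => M.isLat.pos v hv φ)
      obtain ⟨⟨d, hd⟩, hdx⟩ := IsLocalization.exist_integer_multiples_of_finite
        (nonZeroDivisors (𝓞 K)) x
      have hd0 : d ≠ 0 := nonZeroDivisors.ne_zero hd
      choose y hy using hdx
      have hys : dot K 4 y y = d ^ 2 * M.B v v := by
        have key : algebraMap (𝓞 K) K (dot K 4 y y) = algebraMap (𝓞 K) K (d ^ 2 * M.B v v) := by
          change algebraMap (𝓞 K) K (∑ i, y i * y i) = _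
          rw [map_sum, map_mul, map_pow]
          refine Eq.trans ?_ (congrArg (fun t => (algebraMap (𝓞 K) K d) ^ 2 * t) hx)
          rw [Finset.mul_sum]
          refine Finset.sum_congr rfl fun i _ => ?_
          have h := hy i
          rw [Algebra.smul_def] at h
          change algebraMap (𝓞 K) K (y i) = algebraMap (𝓞 K) K d * x i at h
          rw [map_mul, h]
          ring
        exact IsFractionRing.injective (𝓞 K) K key
      have hα : M.B v v ≠ 0 := fun h => hv (self_zero M.isLat v h)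
      -- the projection to the complement
      let W : M.L →ₗ[𝓞 K] perp K M.B v :=
        (M.B v v • LinearMap.id - (M.B v).smulRight v).codRestrict (perp K M.B v) (by
          intro m
          change M.B v (M.B v v • m - M.B v m • v) = 0
          rw [map_sub, map_smul, map_smul, smul_eq_mul, smul_eq_mul, mul_comm, sub_self])
      have hW : ∀ m, (W m : M.L) = M.B v v • m - M.B v m • v := fun m => rfl
      have hWn : ∀ m, M.B (W m : M.L) (W m : M.L)
          = M.B v v ^ 2 * M.B m m - M.B v v * M.B v m ^ 2 := by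
        intro m
        rw [hW]
        simp only [map_sub, map_smul, LinearMap.sub_apply, LinearMap.smul_apply, smul_eq_mul,
          M.isLat.symm m v]
        ring
      let σ : M.L →ₗ[𝓞 K] (Fin (n + 1) → Fin 4 → 𝓞 K) :=
        LinearMap.pi (Fin.cases ((M.B v).smulRight (c' • y))
          (fun i => (LinearMap.proj i).comp (d • σ'.comp W)))
      have hσ0 : ∀ m, σ m 0 = M.B v m • c' • y := fun m => rfl
      have hσs : ∀ m i, σ m (Fin.succ i) = d • σ' (W m) i := fun m i => rfl
      refine ⟨d * c' * M.B v v, mul_ne_zero (mul_ne_zero hd0 hc') hα, σ, fun m => ?_⟩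
      rw [powForm_apply, Fin.sum_univ_succ, hσ0]
      have h1 : ∑ i : Fin n, dot K 4 (σ m (Fin.succ i)) (σ m (Fin.succ i))
          = d ^ 2 * powForm K (dot K 4) n (σ' (W m)) (σ' (W m)) := by
        rw [powForm_apply, Finset.mul_sum]
        refine Finset.sum_congr rfl fun i _ => ?_
        rw [hσs]
        simp only [map_smul, LinearMap.smul_apply, smul_eq_mul]
        ring
      rw [h1, hσ, hWn]
      simp only [map_smul, LinearMap.smul_apply, smul_eq_mul, hys]
      ring
    · refine ⟨1, one_ne_zero, 0, fun x => ?_⟩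
      have hx : x = 0 := by
        by_contra hx
        exact hv ⟨x, hx⟩
      rw [hx]; simp

/-- Gaps between the ranks `n` and `4 n + 1`. -/
theorem gap_four [IsTotallyReal K]
    (h4 : ∀ a : K, (∀ φ : K →+* ℝ, 0 < φ a) → ∃ x : Fin 4 → K, ∑ i, x i ^ 2 = a) (n : ℕ)
    (c : ℕ) (F : Fin c → Lat K) (hF : ∀ i, Unimodular K (F i).B ∧ rk K (F i).L = 1)
    (hne : ∀ i j, i ≠ j → ¬ Isometric K (F i).B (F j).B) :
    U K n + (c : ℕ∞) ≤ U K (4 * n + 1) := by
  have hG : IsLattice K (Fin n → Fin 4 → 𝓞 K) (powForm K (dot K 4) n) :=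
    pow_lattice K (dot K 4) (dot_lattice K 4) n
  have hrk : rk K (Fin n → Fin 4 → 𝓞 K) = n * 4 := by rw [rk_pow, rk_dot]
  have h := removal_space K n (4 * n + 1) ⟨Fin n → Fin 4 → 𝓞 K, powForm K (dot K 4) n, hG⟩
    (pow_unimodular (dot_unimodular 4) n)
    (by change rk K (Fin n → Fin 4 → 𝓞 K) ≤ _; rw [hrk]; omega)
    (fun M hM => ratRep_squares h4 n M hM.le) c F (fun _ => 4 * n + 1) (fun _ => 4 * n)
    (fun i => ⟨(hF i).1, indec_of_rk_one (F i).isLat (hF i).2⟩) hne (fun _ => by omega)
    (fun i => by rw [(hF i).2]; omega)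
    (by
      intro i hrep
      have hfin : Module.Finite (𝓞 K) (F i).L := (F i).isLat.fin
      have h1 := ratRep_rk hG.fin ⟨Fin (4 * n + 1) → (F i).L, powForm K (F i).B (4 * n + 1),
        pow_lattice K (F i).B (F i).isLat (4 * n + 1)⟩ hrep
      change rk K (Fin (4 * n + 1) → (F i).L) ≤ rk K (Fin n → Fin 4 → 𝓞 K) at h1
      rw [rk_pow, hrk, (hF i).2] at h1
      omega)
  have h2 : ∑ i, (4 * n + 1 - 4 * n) * rk K (F i).L = c := by
    rw [Finset.sum_congr rfl (fun i _ => by rw [(hF i).2])]
    simp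
  rw [h2] at h
  exact h

end Pool.Agent.Lib_helper80.ULS
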