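import Pool.Agent.Lib_helper76.UL.Core

/-!
# MP_ea0d02_nt: unimodular overlattices on a given space, and the removal theorem for one space
-/

open NumberField TensorProduct Pool.Agent.Lib_helper76.UL

namespace Pool.Agent.Lib_helper80.ULS

set_option linter.unusedSectionVars false

variable (K : Type) [Field K] [NumberField K]

/-- `(L, BL)` represents `(M, BM)` rationally: the quadratic space `K ⊗ L` represents the space
`K ⊗ M`. In terms of the lattices: for some `c ≠ 0` there is a linear map `σ : M → L` with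
`BL (σ x) (σ x) = c² * BM x x` (so that `σ / c` is the map of the spaces). -/
def RatRep {L M : Type} [AddCommGroup L] [Module (𝓞 K) L] [AddCommGroup M]
    [Module (𝓞 K) M] (BL : LinearMap.BilinForm (𝓞 K) L)
    (BM : LinearMap.BilinForm (𝓞 K) M) : Prop :=
  ∃ c : 𝓞 K, c ≠ 0 ∧ ∃ σ : M →ₗ[𝓞 K] L, ∀ x, BL (σ x) (σ x) = c ^ 2 * BM x x

section
variable {K} {L : Type} [AddCommGroup L] [Module (𝓞 K) L] {B : LinearMap.BilinForm (𝓞 K) L}

theorem torsionFree [IsTotallyReal K] (hB : IsLattice K L B) : Module.IsTorsionFree (𝓞 K) L := by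
  refine Module.isTorsionFree_iff_smul_eq_zero.2 ?_
  intro a x h
  by_cases ha : a = 0
  · exact Or.inl ha
  · right
    apply self_zero hB
    have h1 : a * (a * B x x) = 0 := by
      have : B (a • x) (a • x) = 0 := by rw [h]; simp
      simpa [map_smul, LinearMap.smul_apply, smul_eq_mul] using this
    rcases mul_eq_zero.1 h1 with h2 | h2
    · exact absurd h2 ha
    · rcases mul_eq_zero.1 h2 with h3 | h3
      · exact absurd h3 ha
      · exact h3

theorem reflexive_sub [IsTotallyReal K] (hB : IsLattice K L B) (R : Submodule (𝓞 K) L) :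
    Module.IsReflexive (𝓞 K) R := by
  have := hB.fin
  have h1 : Module.IsTorsionFree (𝓞 K) L := torsionFree hB
  have h2 : Module.IsTorsionFree (𝓞 K) R := inferInstance
  have h3 : Module.Finite (𝓞 K) R := inferInstance
  have h4 : Module.FinitePresentation (𝓞 K) R := Module.finitePresentation_of_finite (𝓞 K) R
  have h5 : Module.Flat (𝓞 K) R := inferInstance
  have h6 : Module.Projective (𝓞 K) R := Module.Flat.projective_of_finitePresentation
  infer_instance

theorem ext_left [IsTotallyReal K] (hB : IsLattice K L B) {x y : L} (h : ∀ z, B x z = B y z) :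
    x = y := by
  rw [← sub_eq_zero]
  apply self_zero hB
  rw [LinearMap.map_sub₂, h, sub_self]

/-- the double annihilator modulo `c` of a submodule that contains `c L` -/
theorem double_ann [IsTotallyReal K] (hB : IsLattice K L B) (hU : Unimodular K B) {c : 𝓞 K}
    (hc : c ≠ 0) (R : Submodule (𝓞 K) L) (hR : ∀ x : L, c • x ∈ R) (b : L)
    (hb : ∀ q : L, (∀ r ∈ R, c ∣ B q r) → c ∣ B b q) : b ∈ R := by
  have href := reflexive_sub hB R
  let T : L →ₗ[𝓞 K] R := (LinearMap.lsmul (𝓞 K) L c).codRestrict R hR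
  have hT : ∀ r : R, T (r : L) = c • r := fun r => Subtype.ext rfl
  have h1 : ∀ f : Module.Dual (𝓞 K) R, ∃ q, ∀ x, B q x = f (T x) := fun f => hU (f.comp T)
  choose q hq using h1
  have hqr : ∀ f (r : R), B (q f) r = c * f r := by
    intro f r
    rw [hq, hT, map_smul, smul_eq_mul]
  have hdiv : ∀ f, c ∣ B b (q f) := fun f =>
    hb (q f) (fun r hr => ⟨f ⟨r, hr⟩, hqr f ⟨r, hr⟩⟩)
  choose d hd using hdiv
  have hadd : ∀ f g, q (f + g) = q f + q g := by
    intro f g
    apply ext_left hB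
    intro z
    rw [map_add, LinearMap.add_apply, hq, hq, hq, LinearMap.add_apply]
  have hsmul : ∀ (a : 𝓞 K) f, q (a • f) = a • q f := by
    intro a f
    apply ext_left hB
    intro z
    rw [map_smul, LinearMap.smul_apply, hq, hq, LinearMap.smul_apply]
  let ψ : Module.Dual (𝓞 K) (Module.Dual (𝓞 K) R) :=
    { toFun := d
      map_add' := by
        intro f g
        apply mul_left_cancel₀ hc
        rw [← hd, hadd, map_add, mul_add, ← hd, ← hd]
      map_smul' := by
        intro a f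
        apply mul_left_cancel₀ hc
        rw [← hd, hsmul, map_smul, hd]
        simp only [smul_eq_mul, RingHom.id_apply]
        ring }
  obtain ⟨r, hr⟩ := (Module.bijective_dual_eval (𝓞 K) R).2 ψ
  have hr' : ∀ f, f r = d f := by
    intro f
    have := congrArg (fun (t : Module.Dual (𝓞 K) (Module.Dual (𝓞 K) R)) => t f) hr
    exact this
  have hbr : b = (r : L) := by
    apply ext_left hB
    intro x
    have h2 : q ((B x).comp R.subtype) = c • x := by
      apply ext_left hB
      intro y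
      rw [hq]
      change B x (c • y) = B (c • x) y
      rw [map_smul, map_smul, LinearMap.smul_apply]
    have h3 := hd ((B x).comp R.subtype)
    rw [h2, ← hr'] at h3
    have h4 : c * B b x = c * B x r := by
      rw [map_smul, smul_eq_mul] at h3
      exact h3
    rw [mul_left_cancel₀ hc h4, hB.symm]
  rw [hbr]
  exact r.2

theorem exists_div {P : Type} [AddCommGroup P] [Module (𝓞 K) P] (A : LinearMap.BilinForm (𝓞 K) P)
    {e : 𝓞 K} (he : e ≠ 0) (h : ∀ p q, e ∣ A p q) :
    ∃ A1 : LinearMap.BilinForm (𝓞 K) P, ∀ p q, A p q = e * A1 p q := by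
  choose d hd using h
  refine ⟨LinearMap.mk₂ (𝓞 K) d ?_ ?_ ?_ ?_, fun p q => by rw [LinearMap.mk₂_apply]; exact hd p q⟩
  · intro a b x
    apply mul_left_cancel₀ he
    rw [← hd, mul_add, ← hd, ← hd, map_add, LinearMap.add_apply]
  · intro a x y
    apply mul_left_cancel₀ he
    rw [← hd, map_smul, LinearMap.smul_apply, hd, smul_eq_mul, smul_eq_mul]
    ring
  · intro a b x
    apply mul_left_cancel₀ he
    rw [← hd, mul_add, ← hd, ← hd, map_add]
  · intro a x y
    apply mul_left_cancel₀ he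
    rw [← hd, map_smul, hd, smul_eq_mul, smul_eq_mul]
    ring

theorem rk_sub [IsTotallyReal K] (hB : IsLattice K L B) (P : Submodule (𝓞 K) L) :
    rk K P ≤ rk K L := by
  have := hB.fin
  have hflat : Module.Flat (𝓞 K) K := IsLocalization.flat K (nonZeroDivisors (𝓞 K))
  have hinj2 : Function.Injective (P.subtype.baseChange K) :=
    Module.Flat.lTensor_preserves_injective_linearMap (M := K) P.subtype
      (Submodule.injective_subtype P)
  exact LinearMap.finrank_le_finrank_of_injective hinj2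

/-- **Unimodular overlattices.** If a unimodular lattice `L` represents a lattice `M` rationally,
then some unimodular lattice on the space of `L` (rationally represented by `L`, of rank at most
that of `L`) represents `M`. -/
theorem exists_unimodular [IsTotallyReal K] (hB : IsLattice K L B) (hU : Unimodular K B)
    (M : Lat K) (hrat : RatRep K B M.B) :
    ∃ G : Lat K, Unimodular K G.B ∧ rk K G.L ≤ rk K L ∧ RatRep K B G.B ∧
      Represents K G.B M.B := by
  obtain ⟨c, hc, σ, hσ⟩ := hrat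
  have hfin := hB.fin
  have hc2 : c ^ 2 ≠ 0 := pow_ne_zero 2 hc
  have hp : ∀ x y, B (σ x) (σ y) = c ^ 2 * M.B x y := by
    intro x y
    have := polar (BM := c ^ 2 • M.B) hB
      (by intro x y; simp only [LinearMap.smul_apply, M.isLat.symm x y]) σ
      (by intro x; rw [hσ]; simp only [LinearMap.smul_apply, smul_eq_mul]) x y
    rw [this]
    simp only [LinearMap.smul_apply, smul_eq_mul]
  -- the annihilator modulo `c`
  let Q : Submodule (𝓞 K) L :=
    { carrier := {x | ∀ m, c ∣ B x (σ m)}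
      add_mem' := by
        intro a b ha hb m
        rw [map_add, LinearMap.add_apply]
        exact dvd_add (ha m) (hb m)
      zero_mem' := by intro m; simp
      smul_mem' := by
        intro a x hx m
        rw [map_smul, LinearMap.smul_apply, smul_eq_mul]
        exact Dvd.dvd.mul_left (hx m) a }
  have hQ : ∀ x, x ∈ Q ↔ ∀ m, c ∣ B x (σ m) := fun x => Iff.rfl
  let P : Submodule (𝓞 K) L := LinearMap.range σ ⊔ Q.map (LinearMap.lsmul (𝓞 K) L c)
  have hP : ∀ z, z ∈ P ↔ ∃ m, ∃ x ∈ Q, z = σ m + c • x := by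
    intro z
    constructor
    · intro hz
      obtain ⟨_, ⟨m, rfl⟩, _, ⟨x, hx, rfl⟩, rfl⟩ := Submodule.mem_sup.1 hz
      exact ⟨m, x, hx, rfl⟩
    · rintro ⟨m, x, hx, rfl⟩
      exact Submodule.add_mem_sup ⟨m, rfl⟩ ⟨x, hx, rfl⟩
  have hσP : ∀ m, σ m ∈ P := fun m => (hP _).2 ⟨m, 0, Submodule.zero_mem _, by simp⟩
  have hQP : ∀ x ∈ Q, c • x ∈ P := fun x hx => (hP _).2 ⟨0, x, hx, by simp⟩
  have hdvd : ∀ p q : P, c ^ 2 ∣ (B.restrict P) p q := by
    rintro ⟨p, hpp⟩ ⟨q, hqq⟩
    obtain ⟨m, x, hx, rfl⟩ := (hP p).1 hpp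
    obtain ⟨m', x', hx', rfl⟩ := (hP q).1 hqq
    change c ^ 2 ∣ B (σ m + c • x) (σ m' + c • x')
    obtain ⟨u, hu⟩ := hx m'
    obtain ⟨v, hv⟩ := hx' m
    simp only [map_add, LinearMap.add_apply, map_smul, LinearMap.smul_apply, smul_eq_mul, hp, hu,
      hB.symm (σ m) x', hv]
    exact ⟨M.B m m' + u + v + B x x', by ring⟩
  obtain ⟨A, hA⟩ := exists_div (B.restrict P) hc2 hdvd
  have hA' : ∀ p q : P, B (p : L) (q : L) = c ^ 2 * A p q := hA
  have hlat : IsLattice K P A := by
    refine ⟨inferInstance, ?_, ?_⟩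
    · intro x y
      apply mul_left_cancel₀ hc2
      rw [← hA', ← hA', hB.symm]
    · intro x hx φ
      have h1 := hB.pos (x : L) (fun h => hx (Subtype.ext h)) φ
      rw [hA'] at h1
      have h2 : φ ((c ^ 2 * A x x : 𝓞 K) : K) = φ (c : K) ^ 2 * φ ((A x x : 𝓞 K) : K) := by
        push_cast
        rw [map_mul, map_pow]
      rw [h2] at h1
      exact pos_of_mul_pos_right h1 (sq_nonneg _)
  refine ⟨⟨P, A, hlat⟩, ?_, rk_sub hB P, ⟨c, hc, P.subtype, fun x => hA' x x⟩, ?_⟩
  · intro f
    have hc2P : ∀ x : L, (c ^ 2) • x ∈ P := by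
      intro x
      have : c • x ∈ Q := by
        intro m
        rw [map_smul, LinearMap.smul_apply, smul_eq_mul]
        exact dvd_mul_right _ _
      have h := hQP _ this
      rwa [smul_smul, ← pow_two] at h
    let T : L →ₗ[𝓞 K] P := (LinearMap.lsmul (𝓞 K) L (c ^ 2)).codRestrict P hc2P
    obtain ⟨b, hb⟩ := hU (f.comp T)
    have hb' : ∀ p : P, B b (p : L) = c ^ 2 * f p := by
      intro p
      rw [hb, LinearMap.comp_apply]
      have : T (p : L) = c ^ 2 • p := Subtype.ext rfl
      rw [this, map_smul, smul_eq_mul]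
    let R : Submodule (𝓞 K) L := LinearMap.range σ ⊔ LinearMap.range (LinearMap.lsmul (𝓞 K) L c)
    have hbR : b ∈ R := by
      apply double_ann hB hU hc R
      · intro x
        exact Submodule.mem_sup_right ⟨x, rfl⟩
      · intro q hq
        have hqQ : q ∈ Q := fun m => hq (σ m) (Submodule.mem_sup_left ⟨m, rfl⟩)
        have h1 := hb' ⟨c • q, hQP q hqQ⟩
        change B b (c • q) = _ at h1
        rw [map_smul, smul_eq_mul, pow_two, mul_assoc] at h1
        exact ⟨_, mul_left_cancel₀ hc h1⟩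
    obtain ⟨_, ⟨m, rfl⟩, _, ⟨y, rfl⟩, hmy⟩ := Submodule.mem_sup.1 hbR
    have hmy' : σ m + c • y = b := hmy
    have hyQ : y ∈ Q := by
      intro m'
      have h1 := hb' ⟨σ m', hσP m'⟩
      change B b (σ m') = _ at h1
      rw [← hmy', map_add, LinearMap.add_apply, hp, map_smul, LinearMap.smul_apply,
        smul_eq_mul] at h1
      refine ⟨f ⟨σ m', hσP m'⟩ - M.B m m', ?_⟩
      apply mul_left_cancel₀ hc
      linear_combination h1
    have hbP : b ∈ P := (hP b).2 ⟨m, y, hyQ, hmy'.symm⟩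
    refine ⟨⟨b, hbP⟩, ?_⟩
    intro p
    apply mul_left_cancel₀ hc2
    rw [← hb' p]
    exact (hA' ⟨b, hbP⟩ p).symm
  · refine ⟨σ.codRestrict P hσP, ?_⟩
    intro x
    apply mul_left_cancel₀ hc2
    rw [← hσ x]
    exact (hA' ⟨σ x, hσP x⟩ ⟨σ x, hσP x⟩).symm

theorem ratRep_trans {M N : Type} [AddCommGroup M] [Module (𝓞 K) M] [AddCommGroup N]
    [Module (𝓞 K) N] {BM : LinearMap.BilinForm (𝓞 K) M} {BN : LinearMap.BilinForm (𝓞 K) N}
    (h : RatRep K B BM) (h' : Represents K BM BN) : RatRep K B BN := by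
  obtain ⟨c, hc, σ, hσ⟩ := h
  obtain ⟨τ, hτ⟩ := h'
  exact ⟨c, hc, σ.comp τ, fun x => by rw [LinearMap.comp_apply, hσ, hτ]⟩

end

/-- The removal theorem on one space. -/
theorem removal_space [IsTotallyReal K] (n N : ℕ) (G0 : Lat K)
    (hG0 : Unimodular K G0.B) (hN : rk K G0.L ≤ N)
    (hrat : ∀ M : Lat K, rk K M.L = n → RatRep K G0.B M.B)
    (c : ℕ) (F : Fin c → Lat K) (k m : Fin c → ℕ)
    (hF : ∀ i, Unimodular K (F i).B ∧ Indec K (F i).B)
    (hne : ∀ i j, i ≠ j → ¬ Isometric K (F i).B (F j).B)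
    (hmk : ∀ i, m i ≤ k i) (hk : ∀ i, k i * rk K (F i).L ≤ N)
    (hno : ∀ i, ¬ RatRep K G0.B (powForm K (F i).B (m i + 1))) :
    U K n + ((∑ i, (k i - m i) * rk K (F i).L : ℕ) : ℕ∞) ≤ U K N := by
  refine removal K n N {G | Unimodular K G.B ∧ rk K G.L ≤ N ∧ RatRep K G0.B G.B}
    (fun G hG => ⟨hG.1, hG.2.1⟩) ?_ c F k m hF hne hmk hk ?_
  · intro M hM
    obtain ⟨G, h1, h2, h3, h4⟩ := exists_unimodular G0.isLat hG0 M (hrat M hM)
    exact ⟨G, ⟨h1, h2.trans hN, h3⟩, h4⟩
  · intro i G hG h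
    exact hno i (ratRep_trans hG.2.2 h)

end Pool.Agent.Lib_helper80.ULS
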